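import Mathlib

/-!
# Completion of matrices to invertible matrices
-/

set_option autoImplicit false

namespace Pool.Agent.R847.SX

lemma exists_completion {n m : ℕ} {E : Type} [Field E] (A : Matrix (Fin n) (Fin n) E)
    (u : Fin m → Fin n → E)
    (hU : ∀ h : Fin n → E, (∀ l, u l ⬝ᵥ h = 0) → A.mulVec h = 0 → h = 0) :
    ∃ c : Fin n → Fin m → E, (A + Matrix.of c * Matrix.of u).det ≠ 0 := by
  classical
  set a := A.mulVecLin with ha
  set V := (Matrix.of u).mulVecLin with hV
  set K := LinearMap.ker a with hK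
  have hinj : LinearMap.ker (V.domRestrict K) = ⊥ := by
    rw [LinearMap.ker_eq_bot']
    rintro ⟨h, hh⟩ h0
    apply Subtype.ext
    apply hU h
    · intro l
      exact congrFun h0 l
    · exact hh
  obtain ⟨g, hg⟩ := LinearMap.exists_leftInverse_of_injective _ hinj
  obtain ⟨Y, hY⟩ := Submodule.exists_isCompl (LinearMap.range a)
  have hfin : Module.finrank E K = Module.finrank E Y := by
    have h1 : Module.finrank E (LinearMap.range a) + Module.finrank E K =
        Module.finrank E (Fin n → E) := LinearMap.finrank_range_add_finrank_ker a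
    have h2 : Module.finrank E (LinearMap.range a) + Module.finrank E Y =
        Module.finrank E (Fin n → E) := Submodule.finrank_add_eq_of_isCompl hY
    omega
  set e : K ≃ₗ[E] Y := LinearEquiv.ofFinrankEq _ _ hfin with he
  set Cm : (Fin m → E) →ₗ[E] (Fin n → E) := Y.subtype ∘ₗ e.toLinearMap ∘ₗ g with hCm
  refine ⟨LinearMap.toMatrix' Cm, ?_⟩
  intro hdet
  obtain ⟨h, hne, h0⟩ := Matrix.exists_mulVec_eq_zero_iff.2 hdet
  apply hne
  have e1 : a h + Cm (V h) = 0 := by
    rw [Matrix.add_mulVec, ← Matrix.mulVec_mulVec] at h0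
    have e2 : (Matrix.of (LinearMap.toMatrix' Cm)).mulVec ((Matrix.of u).mulVec h) = Cm (V h) := by
      have : (Matrix.of (LinearMap.toMatrix' Cm)) = LinearMap.toMatrix' Cm := rfl
      rw [this, LinearMap.toMatrix'_mulVec]
      rfl
    rw [e2] at h0
    exact h0
  have hy : Cm (V h) ∈ Y := (e (g (V h))).2
  have hr : a h ∈ LinearMap.range a := ⟨h, rfl⟩
  have e3 : a h = -Cm (V h) := eq_neg_of_add_eq_zero_left e1
  have e4 : a h = 0 := by
    have h1 : a h ∈ LinearMap.range a ⊓ Y := ⟨hr, by rw [e3]; exact Y.neg_mem hy⟩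
    rw [hY.inf_eq_bot] at h1
    exact h1
  have e5 : Cm (V h) = 0 := by
    rw [e4] at e1
    rwa [zero_add] at e1
  have hh : h ∈ K := e4
  have e6 : g (V h) = ⟨h, hh⟩ := LinearMap.congr_fun hg ⟨h, hh⟩
  have e7 : e (g (V h)) = 0 := Subtype.ext e5
  rw [e6, LinearEquiv.map_eq_zero_iff] at e7
  exact congrArg Subtype.val e7

end Pool.Agent.R847.SX
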