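import Mathlib
import Pool.Agent.R847.SX.Det
import Pool.Agent.R847.SN.Hom

/-!
# Prime avoidance: modification of forms to forms without common zeros
-/

set_option autoImplicit false

open MvPolynomial

namespace Pool.Agent.R847.SX

section chain

variable {R : Type} [CommRing R]

lemma height_chain {n : ℕ} (g : Fin n → R) (J : Ideal R)
    (h : ∀ i : Fin n, ∀ P ∈ (Ideal.span (g '' {j | (j : ℕ) < (i : ℕ)})).minimalPrimes,
      ¬ J ≤ P → g i ∉ P) (i : ℕ) (hi : i ≤ n) :
    ∀ P ∈ (Ideal.span (g '' {j : Fin n | (j : ℕ) < i})).minimalPrimes, ¬ J ≤ P →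
      (i : ℕ∞) ≤ P.height := by
  induction i with
  | zero =>
    intro P _ _
    simp
  | succ i ih =>
    intro P hP hJ
    have hPp : P.IsPrime := hP.1.1
    have hle : Ideal.span (g '' {j : Fin n | (j : ℕ) < i}) ≤ P := by
      refine le_trans (Ideal.span_mono (Set.image_mono ?_)) hP.1.2
      intro j hj
      have : (j : ℕ) < i := hj
      show (j : ℕ) < i + 1
      omega
    obtain ⟨P', hP', hPP⟩ := Ideal.exists_minimalPrimes_le hle
    have hP'p : P'.IsPrime := hP'.1.1
    have hJ' : ¬ J ≤ P' := fun h => hJ (h.trans hPP)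
    have h1 := ih (by omega) P' hP' hJ'
    have h2 := h ⟨i, by omega⟩ P' hP' hJ'
    have h3 : g ⟨i, by omega⟩ ∈ P := by
      apply hP.1.2
      apply Ideal.subset_span
      refine ⟨⟨i, by omega⟩, ?_, rfl⟩
      show i < i + 1
      omega
    have hlt : P' < P := lt_of_le_of_ne hPP fun h => h2 (h ▸ h3)
    have h4 := Ideal.height_add_one_le_of_lt_of_isPrime hlt
    push_cast
    exact (add_le_add_left h1 1).trans h4

end chain

section forms

variable {k : Type} [Field k] {N : ℕ}

lemma height_vars : (Ideal.span (Set.range (X : Fin (N + 1) → MvPolynomial (Fin (N + 1)) k))).height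
    ≤ ((N + 1 : ℕ) : ℕ∞) := by
  have hne : Ideal.span (Set.range (X : Fin (N + 1) → MvPolynomial (Fin (N + 1)) k)) ≠ ⊤ := by
    intro h
    have h1 : Ideal.span (Set.range (X : Fin (N + 1) → MvPolynomial (Fin (N + 1)) k)) ≤
        RingHom.ker (constantCoeff : MvPolynomial (Fin (N + 1)) k →+* k) := by
      rw [Ideal.span_le]
      rintro _ ⟨i, rfl⟩
      simp
    rw [h, top_le_iff] at h1
    exact RingHom.ker_ne_top _ h1
  refine (Ideal.height_le_spanFinrank _ hne).trans ?_
  have h1 := Submodule.spanFinrank_span_le_ncard_of_finite (R := MvPolynomial (Fin (N + 1)) k)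
    (Set.finite_range (X : Fin (N + 1) → MvPolynomial (Fin (N + 1)) k))
  have h2 : (Set.range (X : Fin (N + 1) → MvPolynomial (Fin (N + 1)) k)).ncard ≤ N + 1 := by
    rw [← Set.image_univ]
    refine (Set.ncard_image_le Set.finite_univ).trans ?_
    rw [Set.ncard_univ, Nat.card_eq_fintype_card, Fintype.card_fin]
  exact_mod_cast h1.trans h2

/-- Forms with large heights of the minimal primes have no common zero. -/
lemma no_zero (d : ℕ) (g : Fin (N + 1) → MvPolynomial (Fin (N + 1)) k)
    (hg : ∀ i, (g i).IsHomogeneous d) (J : Ideal (MvPolynomial (Fin (N + 1)) k))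
    (hh : ∀ P ∈ (Ideal.span (Set.range g)).minimalPrimes, ¬ J ≤ P →
      ((N + 1 : ℕ) : ℕ∞) ≤ P.height)
    (z : Fin (N + 1) → AlgebraicClosure k) (hz : ∀ i, aeval z (g i) = 0)
    (q : MvPolynomial (Fin (N + 1)) k) (hq : q.IsHomogeneous d) (hqJ : q ∈ J)
    (hqz : aeval z q ≠ 0) : z = 0 := by
  classical
  by_contra hne
  obtain ⟨i0, hi0⟩ := Function.ne_iff.1 hne
  set φ : MvPolynomial (Fin (N + 1)) k →ₐ[k] Polynomial (AlgebraicClosure k) :=
    aeval (fun i => Polynomial.X * Polynomial.C (z i)) with hφ
  have hCz : ∀ p : MvPolynomial (Fin (N + 1)) k,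
      aeval (fun i => Polynomial.C (z i)) p = Polynomial.C (aeval z p) := by
    intro p
    have h1 := comp_aeval_apply (σ := Fin (N + 1)) z
      ((Polynomial.CAlgHom : AlgebraicClosure k →ₐ[AlgebraicClosure k] _).restrictScalars k) p
    exact h1.symm
  have hφh : ∀ p : MvPolynomial (Fin (N + 1)) k, p.IsHomogeneous d →
      φ p = Polynomial.X ^ d * Polynomial.C (aeval z p) := by
    intro p hp
    rw [hφ, Pool.Agent.R847.SN.aeval_scale p d hp, hCz]
  have hQp : (RingHom.ker φ).IsPrime := RingHom.ker_isPrime _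
  have hle : Ideal.span (Set.range g) ≤ RingHom.ker φ := by
    rw [Ideal.span_le]
    rintro _ ⟨i, rfl⟩
    rw [SetLike.mem_coe, RingHom.mem_ker, hφh _ (hg i), hz i, Polynomial.C_0, mul_zero]
  obtain ⟨P, hP, hPQ⟩ := Ideal.exists_minimalPrimes_le hle
  have hJP : ¬ J ≤ P := by
    intro h
    have h1 := hPQ (h hqJ)
    rw [RingHom.mem_ker, hφh _ hq, mul_eq_zero] at h1
    rcases h1 with h1 | h1
    · exact pow_ne_zero _ Polynomial.X_ne_zero h1
    · exact hqz (Polynomial.C_eq_zero.1 h1)
  have h1 := hh P hP hJP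
  have h2 : P.height ≤ (RingHom.ker φ).height := Ideal.height_mono hPQ
  set m := RingHom.ker (constantCoeff : MvPolynomial (Fin (N + 1)) k →+* k) with hm
  have hmp : m.IsPrime := RingHom.ker_isPrime _
  have hm' : m = Ideal.span (Set.range (X : Fin (N + 1) → MvPolynomial (Fin (N + 1)) k)) := by
    apply le_antisymm
    · intro p hp
      rw [← Set.image_univ, mem_ideal_span_X_image]
      intro κ hκ
      by_contra hno
      push Not at hno
      have : κ = 0 := Finsupp.ext fun i => hno i (Set.mem_univ i)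
      rw [this, mem_support_iff] at hκ
      exact hκ hp
    · rw [Ideal.span_le]
      rintro _ ⟨i, rfl⟩
      rw [hm]
      simp
  have hlt : RingHom.ker φ < m := by
    refine lt_of_le_of_ne ?_ ?_
    · intro p hp
      rw [RingHom.mem_ker] at hp
      rw [hm, RingHom.mem_ker]
      have h3 : (Polynomial.aeval (0 : AlgebraicClosure k)) (φ p) = 0 := by rw [hp, map_zero]
      have h4 : (Polynomial.aeval (0 : AlgebraicClosure k)) (φ p) =
          aeval (fun _ => (0 : AlgebraicClosure k)) p := by
        have h5 := comp_aeval_apply (σ := Fin (N + 1))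
          (fun i => Polynomial.X * Polynomial.C (z i))
          ((Polynomial.aeval (R := AlgebraicClosure k) (0 : AlgebraicClosure k)).restrictScalars k) p
        rw [hφ]
        refine h5.trans ?_
        congr 2
        funext i
        simp
      rw [h4] at h3
      have h5 : aeval (fun _ => (0 : AlgebraicClosure k)) p =
          algebraMap k (AlgebraicClosure k) (constantCoeff p) := by
        have := aeval_zero' (R := k) (σ := Fin (N + 1)) (S₁ := AlgebraicClosure k) p
        exact this
      rw [h5, map_eq_zero] at h3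
      exact h3
    · intro h
      have h3 : (X i0 : MvPolynomial (Fin (N + 1)) k) ∈ m := by
        rw [hm]
        simp
      rw [← h, RingHom.mem_ker, hφ, aeval_X, mul_eq_zero] at h3
      rcases h3 with h3 | h3
      · exact Polynomial.X_ne_zero h3
      · exact hi0 (Polynomial.C_eq_zero.1 h3)
  have h3 := Ideal.height_add_one_le_of_lt_of_isPrime hlt
  have h4 : m.height ≤ ((N + 1 : ℕ) : ℕ∞) := by
    rw [hm']
    exact height_vars
  have h5 : ((N + 1 : ℕ) : ℕ∞) + 1 ≤ ((N + 1 : ℕ) : ℕ∞) :=
    (add_le_add_left (h1.trans h2) 1).trans (h3.trans h4)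
  have h6 : (((N + 1) + 1 : ℕ) : ℕ∞) ≤ ((N + 1 : ℕ) : ℕ∞) := by exact_mod_cast h5
  have h7 : (N + 1) + 1 ≤ N + 1 := by exact_mod_cast h6
  omega

end forms

section curve

/-- few points on a curve with nonzero coefficients -/
lemma finite_zeros {k V : Type} [Field k] [AddCommGroup V] [Module k V] {m : ℕ} (v0 : V)
    (v : Fin m → V) (h : ¬ (v0 = 0 ∧ ∀ l, v l = 0)) :
    {t : k | v0 + ∑ l : Fin m, t ^ ((l : ℕ) + 1) • v l = 0}.Finite := by
  classical
  have key : ∀ φ : Module.Dual k V, ¬ (φ v0 = 0 ∧ ∀ l, φ (v l) = 0) →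
      {t : k | v0 + ∑ l : Fin m, t ^ ((l : ℕ) + 1) • v l = 0}.Finite := by
    intro φ hφ
    set Q : Polynomial k := Polynomial.C (φ v0) +
      ∑ l : Fin m, Polynomial.C (φ (v l)) * Polynomial.X ^ ((l : ℕ) + 1) with hQ
    have hQ0 : Q ≠ 0 := by
      intro h0
      apply hφ
      constructor
      · have h1 := congrArg (fun p => Polynomial.coeff p 0) h0
        simp only [hQ, Polynomial.coeff_add, Polynomial.coeff_C_zero, Polynomial.finsetSum_coeff,
          Polynomial.coeff_C_mul, Polynomial.coeff_X_pow, Polynomial.coeff_zero] at h1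
        rw [Finset.sum_eq_zero, add_zero] at h1
        · exact h1
        · intro l _
          rw [if_neg (by omega), mul_zero]
      · intro l
        have h1 := congrArg (fun p => Polynomial.coeff p ((l : ℕ) + 1)) h0
        simp only [hQ, Polynomial.coeff_add, Polynomial.coeff_C_succ, Polynomial.finsetSum_coeff,
          Polynomial.coeff_C_mul, Polynomial.coeff_X_pow, Polynomial.coeff_zero] at h1
        rw [Finset.sum_eq_single l, if_pos rfl, mul_one, zero_add] at h1
        · exact h1
        · intro b _ hb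
          rw [if_neg, mul_zero]
          intro h2
          apply hb
          apply Fin.ext
          omega
        · intro h
          exact absurd (Finset.mem_univ _) h
    refine (Q.roots.toFinset.finite_toSet).subset ?_
    intro t ht
    rw [Finset.mem_coe, Multiset.mem_toFinset, Polynomial.mem_roots hQ0, Polynomial.IsRoot.def]
    have h1 := congrArg φ (show v0 + ∑ l : Fin m, t ^ ((l : ℕ) + 1) • v l = 0 from ht)
    rw [map_zero, map_add, map_sum] at h1
    rw [← h1, hQ, Polynomial.eval_add, Polynomial.eval_C, Polynomial.eval_finsetSum]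
    congr 1
    refine Finset.sum_congr rfl fun l _ => ?_
    rw [Polynomial.eval_mul, Polynomial.eval_C, Polynomial.eval_pow, Polynomial.eval_X, map_smul,
      smul_eq_mul, mul_comm]
  by_cases h0 : v0 = 0
  · have h1 : ∃ l, v l ≠ 0 := by
      by_contra hno
      push Not at hno
      exact h ⟨h0, hno⟩
    obtain ⟨l, hl⟩ := h1
    obtain ⟨φ, hφ⟩ : ∃ φ : Module.Dual k V, φ (v l) ≠ 0 := by
      by_contra hno
      push Not at hno
      exact hl ((Module.forall_dual_apply_eq_zero_iff k _).1 hno)
    exact key φ fun h => hφ (h.2 l)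
  · obtain ⟨φ, hφ⟩ : ∃ φ : Module.Dual k V, φ v0 ≠ 0 := by
      by_contra hno
      push Not at hno
      exact h0 ((Module.forall_dual_apply_eq_zero_iff k _).1 hno)
    exact key φ fun h => hφ h.1

end curve

end Pool.Agent.R847.SX
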