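import Mathlib
import Pool.Agent.R847.SX.Avoid

/-!
# Modification of forms to a regular system with given points unramified
-/

set_option autoImplicit false

open MvPolynomial

namespace Pool.Agent.R847.SX

variable {k : Type} [Field k] {E : Type} [Field E] [Algebra k E] {N m : ℕ}

/-- the modified forms -/
noncomputable def Ft (F : Fin (N + 1) → MvPolynomial (Fin (N + 1)) k)
    (G : Fin m → MvPolynomial (Fin (N + 1)) k) (c : Fin (N + 1) → Fin m → k)
    (i : Fin (N + 1)) : MvPolynomial (Fin (N + 1)) k := F i + ∑ l, C (c i l) * G l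

/-- the Jacobian matrix -/
noncomputable def JF (F : Fin (N + 1) → MvPolynomial (Fin (N + 1)) k) (w : Fin (N + 1) → E) :
    Matrix (Fin (N + 1)) (Fin (N + 1)) E := Matrix.of fun i j => aeval w (pderiv j (F i))

/-- the gradients -/
noncomputable def JG (G : Fin m → MvPolynomial (Fin (N + 1)) k) (w : Fin (N + 1) → E) :
    Fin m → Fin (N + 1) → E := fun l j => aeval w (pderiv j (G l))

lemma Ft_update_ne (F : Fin (N + 1) → MvPolynomial (Fin (N + 1)) k)
    (G : Fin m → MvPolynomial (Fin (N + 1)) k) (c : Fin (N + 1) → Fin m → k)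
    (i j : Fin (N + 1)) (r : Fin m → k) (h : j ≠ i) :
    Ft F G (Function.update c i r) j = Ft F G c j := by
  unfold Ft
  rw [Function.update_of_ne h]

lemma bad_prime (F : MvPolynomial (Fin (N + 1)) k) (G : Fin m → MvPolynomial (Fin (N + 1)) k)
    (P : Ideal (MvPolynomial (Fin (N + 1)) k)) (h : ¬ Ideal.span (Set.range G) ≤ P) :
    {t : k | F + ∑ l : Fin m, C (t ^ ((l : ℕ) + 1)) * G l ∈ P}.Finite := by
  have h1 : ∃ l, G l ∉ P := by
    by_contra hno
    push Not at hno
    apply h
    rw [Ideal.span_le]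
    rintro _ ⟨l, rfl⟩
    exact hno l
  obtain ⟨l, hl⟩ := h1
  have h2 := finite_zeros (k := k) (Ideal.Quotient.mkₐ k P F)
    (fun l => Ideal.Quotient.mkₐ k P (G l)) (fun h => hl (by
      have h3 := h.2 l
      rw [Ideal.Quotient.mkₐ_eq_mk] at h3
      exact Ideal.Quotient.eq_zero_iff_mem.1 h3))
  refine h2.subset ?_
  intro t ht
  have h3 : F + ∑ l : Fin m, C (t ^ ((l : ℕ) + 1)) * G l ∈ P := ht
  show Ideal.Quotient.mkₐ k P F + ∑ l : Fin m, t ^ ((l : ℕ) + 1) •
    Ideal.Quotient.mkₐ k P (G l) = 0
  simp_rw [← map_smul, ← map_sum, ← map_add, ← C_mul']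
  rw [Ideal.Quotient.mkₐ_eq_mk]
  exact Ideal.Quotient.eq_zero_iff_mem.2 h3

lemma map_smul_sum_aux {V : Type} [AddCommGroup V] [Module E V] (L : V →ₗ[E] E)
    (a : Fin m → E) (u : Fin m → V) : L (∑ l, a l • u l) = ∑ l, a l • L (u l) := by
  rw [map_sum]
  exact Finset.sum_congr rfl fun l _ => map_smul _ _ _

lemma bad_point (A : Matrix (Fin (N + 1)) (Fin (N + 1)) E) (u : Fin m → Fin (N + 1) → E)
    (c' : Fin (N + 1) → Fin m → E) (h : (A + Matrix.of c' * Matrix.of u).det ≠ 0)
    (i : Fin (N + 1)) :
    {t : k | (A + Matrix.of (Function.update c' i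
      (fun l : Fin m => algebraMap k E t ^ ((l : ℕ) + 1))) * Matrix.of u).det = 0}.Finite := by
  classical
  set M := A + Matrix.of c' * Matrix.of u with hM
  set L : (Fin (N + 1) → E) →ₗ[E] E :=
    (Matrix.detRowAlternating (n := Fin (N + 1)) (R := E)).toMultilinearMap.toLinearMap M i with hL
  have hLr : ∀ r, L r = (M.updateRow i r).det := fun r => rfl
  have hMi : M i = A i + ∑ l, c' i l • u l := by
    funext j
    rw [hM, Matrix.add_apply, Matrix.mul_apply, Pi.add_apply, Finset.sum_apply]
    rfl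
  have h1 : L (A i) + ∑ l, c' i l • L (u l) ≠ 0 := by
    rw [← map_smul_sum_aux L (c' i) u, ← map_add, ← hMi, hLr, Matrix.updateRow_eq_self]
    exact h
  have h2 := finite_zeros (k := k) (L (A i)) (fun l => L (u l)) (by
    rintro ⟨h3, h4⟩
    apply h1
    rw [h3, zero_add]
    apply Finset.sum_eq_zero
    intro l _
    rw [h4 l, smul_zero])
  refine h2.subset ?_
  intro t ht
  have h3 : (A + Matrix.of (Function.update c' i
      (fun l : Fin m => algebraMap k E t ^ ((l : ℕ) + 1))) * Matrix.of u).det = 0 := ht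
  have h4 : A + Matrix.of (Function.update c' i
      (fun l : Fin m => algebraMap k E t ^ ((l : ℕ) + 1))) * Matrix.of u =
      M.updateRow i (A i + ∑ l : Fin m, (algebraMap k E t ^ ((l : ℕ) + 1)) • u l) := by
    ext a b
    by_cases hab : a = i
    · subst hab
      rw [Matrix.updateRow_self, Matrix.add_apply, Matrix.mul_apply, Pi.add_apply,
        Finset.sum_apply]
      congr 1
      refine Finset.sum_congr rfl fun l _ => ?_
      rw [Matrix.of_apply, Function.update_self]
      rfl
    · rw [Matrix.updateRow_ne hab, hM, Matrix.add_apply, Matrix.mul_apply, Matrix.add_apply,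
        Matrix.mul_apply]
      congr 1
      refine Finset.sum_congr rfl fun l _ => ?_
      rw [Matrix.of_apply, Function.update_of_ne hab, Matrix.of_apply]
      rfl
  rw [h4, ← hLr, map_add, map_smul_sum_aux L] at h3
  show L (A i) + ∑ l : Fin m, t ^ ((l : ℕ) + 1) • L (u l) = 0
  rw [← h3]
  congr 1
  refine Finset.sum_congr rfl fun l _ => ?_
  rw [Algebra.smul_def, map_pow, smul_eq_mul]

/-- The choice of the rows. -/
theorem exists_rows [Infinite k] (F : Fin (N + 1) → MvPolynomial (Fin (N + 1)) k)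
    (G : Fin m → MvPolynomial (Fin (N + 1)) k) (Ws : Finset (Fin (N + 1) → E))
    (hU : ∀ w ∈ Ws, ∀ h : Fin (N + 1) → E, (∀ l, JG G w l ⬝ᵥ h = 0) →
      (JF F w).mulVec h = 0 → h = 0) (i : ℕ) (hi : i ≤ N + 1) :
    ∃ c : Fin (N + 1) → Fin m → k,
      (∀ i' : Fin (N + 1), (i' : ℕ) < i →
        ∀ P ∈ (Ideal.span (Ft F G c '' {j | (j : ℕ) < (i' : ℕ)})).minimalPrimes,
          ¬ Ideal.span (Set.range G) ≤ P → Ft F G c i' ∉ P) ∧
      ∀ w ∈ Ws, ∃ C' : Fin (N + 1) → Fin m → E,
        (∀ i' : Fin (N + 1), (i' : ℕ) < i → C' i' = fun l => algebraMap k E (c i' l)) ∧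
        (JF F w + Matrix.of C' * Matrix.of (JG G w)).det ≠ 0 := by
  classical
  induction i with
  | zero =>
    refine ⟨fun _ _ => 0, fun i' h => absurd h (Nat.not_lt_zero _), fun w hw => ?_⟩
    obtain ⟨c, hc⟩ := exists_completion (JF F w) (JG G w) (hU w hw)
    exact ⟨c, fun i' h => absurd h (Nat.not_lt_zero _), hc⟩
  | succ i ih =>
    obtain ⟨c, h1, h2⟩ := ih (by omega)
    set i0 : Fin (N + 1) := ⟨i, by omega⟩ with hi0
    have h2' : ∀ w : Ws, ∃ C' : Fin (N + 1) → Fin m → E,
        (∀ i' : Fin (N + 1), (i' : ℕ) < i → C' i' = fun l => algebraMap k E (c i' l)) ∧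
        (JF F (w : Fin (N + 1) → E) + Matrix.of C' * Matrix.of (JG G w)).det ≠ 0 :=
      fun w => h2 w w.2
    choose C' hC'1 hC'2 using h2'
    set I := Ideal.span (Ft F G c '' {j | (j : ℕ) < i}) with hI
    have hfin1 : (⋃ P ∈ I.minimalPrimes, {t : k | ¬ Ideal.span (Set.range G) ≤ P ∧
        F i0 + ∑ l : Fin m, C (t ^ ((l : ℕ) + 1)) * G l ∈ P}).Finite := by
      apply Set.Finite.biUnion (Ideal.finite_minimalPrimes_of_isNoetherianRing _ I)
      intro P _
      by_cases hP : Ideal.span (Set.range G) ≤ P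
      · apply Set.finite_empty.subset
        rintro t ⟨ht, _⟩
        exact ht hP
      · exact (bad_prime (F i0) G P hP).subset fun t ht => ht.2
    have hfin2 : (⋃ w : Ws, {t : k | (JF F (w : Fin (N + 1) → E) +
        Matrix.of (Function.update (C' w) i0
          (fun l : Fin m => algebraMap k E t ^ ((l : ℕ) + 1))) *
            Matrix.of (JG G w)).det = 0}).Finite :=
      Set.finite_iUnion fun w => bad_point _ _ (C' w) (hC'2 w) i0
    obtain ⟨t, ht⟩ := (hfin1.union hfin2).exists_notMem
    rw [Set.mem_union, not_or] at ht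
    obtain ⟨ht1, ht2⟩ := ht
    set r : Fin m → k := fun l => t ^ ((l : ℕ) + 1) with hr
    refine ⟨Function.update c i0 r, ?_, ?_⟩
    · intro i' hi' P hP hJ
      have himg : Ft F G (Function.update c i0 r) '' {j | (j : ℕ) < (i' : ℕ)} =
          Ft F G c '' {j | (j : ℕ) < (i' : ℕ)} := by
        apply Set.image_congr
        intro j hj
        apply Ft_update_ne
        intro h
        have h3 : (j : ℕ) < (i' : ℕ) := hj
        rw [h, hi0] at h3
        have h4 : i < (i' : ℕ) := h3
        omega
      rw [himg] at hP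
      by_cases hii : i' = i0
      · subst hii
        have hP' : P ∈ I.minimalPrimes := hP
        intro hmem
        apply ht1
        rw [Set.mem_iUnion₂]
        refine ⟨P, hP', hJ, ?_⟩
        have h3 : Ft F G (Function.update c i0 r) i0 =
            F i0 + ∑ l : Fin m, C (t ^ ((l : ℕ) + 1)) * G l := by
          unfold Ft
          rw [Function.update_self]
        rwa [h3] at hmem
      · rw [Ft_update_ne _ _ _ _ _ _ hii]
        refine h1 i' ?_ P hP hJ
        have : (i' : ℕ) ≠ i := fun h => hii (Fin.ext h)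
        omega
    · intro w hw
      refine ⟨Function.update (C' ⟨w, hw⟩) i0
        (fun l : Fin m => algebraMap k E t ^ ((l : ℕ) + 1)), ?_, ?_⟩
      · intro i' hi'
        by_cases hii : i' = i0
        · rw [hii, Function.update_self, Function.update_self]
          funext l
          rw [hr, map_pow]
        · rw [Function.update_of_ne hii, Function.update_of_ne hii]
          apply hC'1 ⟨w, hw⟩ i'
          have : (i' : ℕ) ≠ i := fun h => hii (Fin.ext h)
          omega
      · intro h0
        apply ht2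
        rw [Set.mem_iUnion]
        exact ⟨⟨w, hw⟩, h0⟩

/-- Modification of forms to a regular system with given points unramified. -/
theorem exists_mod [Infinite k] (d : ℕ) (F : Fin (N + 1) → MvPolynomial (Fin (N + 1)) k)
    (G : Fin m → MvPolynomial (Fin (N + 1)) k) (hF : ∀ i, (F i).IsHomogeneous d)
    (hG : ∀ l, (G l).IsHomogeneous d)
    (hR : ∀ z : Fin (N + 1) → AlgebraicClosure k, (∀ l, aeval z (G l) = 0) →
      (∀ i, aeval z (F i) = 0) → z = 0)
    (Ws : Finset (Fin (N + 1) → E))
    (hU : ∀ w ∈ Ws, ∀ h : Fin (N + 1) → E, (∀ l, JG G w l ⬝ᵥ h = 0) →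
      (JF F w).mulVec h = 0 → h = 0) :
    ∃ c : Fin (N + 1) → Fin m → k,
      (∀ z : Fin (N + 1) → AlgebraicClosure k, (∀ i, aeval z (Ft F G c i) = 0) → z = 0) ∧
      ∀ w ∈ Ws, (JF (Ft F G c) w).det ≠ 0 := by
  classical
  obtain ⟨c, h1, h2⟩ := exists_rows F G Ws hU (N + 1) le_rfl
  refine ⟨c, fun z hz => ?_, fun w hw => ?_⟩
  · by_cases hGz : ∀ l, aeval z (G l) = 0
    · apply hR z hGz
      intro i
      have h3 := hz i
      unfold Ft at h3
      rw [map_add, map_sum] at h3
      rw [Finset.sum_eq_zero, add_zero] at h3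
      · exact h3
      · intro l _
        rw [map_mul, hGz l, mul_zero]
    · push Not at hGz
      obtain ⟨l, hl⟩ := hGz
      refine no_zero d (Ft F G c) ?_ (Ideal.span (Set.range G)) ?_ z hz (G l) (hG l)
        (Ideal.subset_span ⟨l, rfl⟩) hl
      · intro i
        unfold Ft
        apply (hF i).add
        apply IsHomogeneous.sum
        intro l _
        have h3 := (isHomogeneous_C (Fin (N + 1)) (c i l)).mul (hG l)
        rwa [zero_add] at h3
      · have h3 := height_chain (Ft F G c) (Ideal.span (Set.range G))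
          (fun i P hP hJ => h1 i i.2 P hP hJ) (N + 1) le_rfl
        have h4 : Ft F G c '' {j : Fin (N + 1) | (j : ℕ) < N + 1} = Set.range (Ft F G c) := by
          rw [← Set.image_univ]
          congr 1
          ext j
          have := j.2
          simp only [Set.mem_ofPred_eq, Set.mem_univ, iff_true]
          exact this
        rw [h4] at h3
        exact h3
  · obtain ⟨C', h3, h4⟩ := h2 w hw
    have h5 : JF (Ft F G c) w = JF F w + Matrix.of C' * Matrix.of (JG G w) := by
      ext a b
      rw [Matrix.add_apply, Matrix.mul_apply]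
      unfold JF JG Ft
      rw [Matrix.of_apply, Matrix.of_apply, map_add, map_add, map_sum, map_sum]
      congr 1
      refine Finset.sum_congr rfl fun l _ => ?_
      rw [Matrix.of_apply, Matrix.of_apply, h3 a a.2, Derivation.leibniz, pderiv_C, smul_zero,
        add_zero, smul_eq_mul, map_mul, aeval_C]
    rw [h5]
    exact h4

end Pool.Agent.R847.SX
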