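import Mathlib
import Pool.Agent.R847.HG.Ht
import Pool.Agent.R847.SX.Choose

/-!
# Leading forms of compositions
-/

set_option autoImplicit false

open MvPolynomial

namespace Pool.Agent.R847.SX

section top

variable {σ τ R : Type} [CommRing R]

lemma sum_hc (q : MvPolynomial σ R) (b : ℕ) (hq : q.totalDegree ≤ b) :
    q = ∑ i ∈ Finset.range (b + 1), homogeneousComponent i q := by
  conv_lhs => rw [← sum_homogeneousComponent q]
  apply Finset.sum_subset
  · intro i hi
    rw [Finset.mem_range] at hi ⊢
    omega
  · intro i _ hi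
    rw [Finset.mem_range] at hi
    exact homogeneousComponent_eq_zero _ _ (by omega)

/-- the top part of a product -/
lemma top_mul (p q : MvPolynomial σ R) (a b : ℕ) (hp : p.totalDegree ≤ a)
    (hq : q.totalDegree ≤ b) : homogeneousComponent (a + b) (p * q) =
      homogeneousComponent a p * homogeneousComponent b q := by
  conv_lhs => rw [sum_hc q b hq, Finset.mul_sum, map_sum]
  rw [Finset.sum_range_succ, Finset.sum_eq_zero, zero_add]
  · exact Pool.Agent.R847.HG.homComp_mul (homogeneousComponent_isHomogeneous b q) p a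
  · intro i hi
    rw [Finset.mem_range] at hi
    have h1 : a + b = (a + b - i) + i := by omega
    rw [h1, Pool.Agent.R847.HG.homComp_mul (homogeneousComponent_isHomogeneous i q) p,
      homogeneousComponent_eq_zero _ _ (by omega), zero_mul]

lemma top_pow (p : MvPolynomial σ R) (a n : ℕ) (hp : p.totalDegree ≤ a) :
    (p ^ n).totalDegree ≤ a * n ∧
      homogeneousComponent (a * n) (p ^ n) = homogeneousComponent a p ^ n := by
  induction n with
  | zero =>
    rw [pow_zero, mul_zero, pow_zero]
    refine ⟨by simp, ?_⟩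
    rw [homogeneousComponent_of_mem (isHomogeneous_one _ _), if_pos rfl]
  | succ n ih =>
    refine ⟨?_, ?_⟩
    · rw [pow_succ]
      refine (totalDegree_mul _ _).trans ?_
      have := ih.1
      rw [mul_add, mul_one]
      omega
    · rw [pow_succ, mul_add, mul_one, top_mul _ _ _ _ ih.1 hp, ih.2, pow_succ]

lemma top_prod {ι : Type} (s : Finset ι) (p : ι → MvPolynomial σ R) (a : ι → ℕ)
    (hp : ∀ i, (p i).totalDegree ≤ a i) :
    (∏ i ∈ s, p i).totalDegree ≤ ∑ i ∈ s, a i ∧
      homogeneousComponent (∑ i ∈ s, a i) (∏ i ∈ s, p i) =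
        ∏ i ∈ s, homogeneousComponent (a i) (p i) := by
  classical
  induction s using Finset.induction_on with
  | empty =>
    rw [Finset.prod_empty, Finset.sum_empty, Finset.prod_empty]
    refine ⟨by simp, ?_⟩
    rw [homogeneousComponent_of_mem (isHomogeneous_one _ _), if_pos rfl]
  | insert i s hi ih =>
    rw [Finset.prod_insert hi, Finset.sum_insert hi, Finset.prod_insert hi]
    refine ⟨(totalDegree_mul _ _).trans (add_le_add (hp i) ih.1), ?_⟩
    rw [top_mul _ _ _ _ (hp i) ih.1, ih.2]

lemma bind_mon {ι : Type} [Fintype ι] (f : ι → MvPolynomial σ R) (κ : ι →₀ ℕ) (c : R) :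
    bind₁ f (monomial κ c) = C c * ∏ i, f i ^ κ i := by
  rw [bind₁_monomial]
  congr 1
  apply Finset.prod_subset (Finset.subset_univ _)
  intro i _ hi
  rw [Finsupp.notMem_support_iff.1 hi, pow_zero]

/-- the top part of a composition -/
lemma top_bind {ι : Type} [Fintype ι] (d : ℕ) (hd : d ≠ 0) (f : ι → MvPolynomial σ R)
    (hf : ∀ i, (f i).totalDegree ≤ d) (g : MvPolynomial ι R) (a : ℕ) (hg : g.totalDegree ≤ a) :
    (bind₁ f g).totalDegree ≤ d * a ∧ homogeneousComponent (d * a) (bind₁ f g) =
      bind₁ (fun i => homogeneousComponent d (f i)) (homogeneousComponent a g) := by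
  classical
  have hm : ∀ κ : ι →₀ ℕ, ∀ c : R, bind₁ f (monomial κ c) = C c * ∏ i, f i ^ κ i :=
    bind_mon f
  have hprod : ∀ κ : ι →₀ ℕ, (∏ i, f i ^ κ i).totalDegree ≤ d * ∑ i, κ i ∧
      homogeneousComponent (d * ∑ i, κ i) (∏ i, f i ^ κ i) =
        ∏ i, homogeneousComponent d (f i) ^ κ i := by
    intro κ
    have h1 := top_prod Finset.univ (fun i => f i ^ κ i) (fun i => d * κ i)
      (fun i => (top_pow (f i) d (κ i) (hf i)).1)
    rw [← Finset.mul_sum] at h1
    refine ⟨h1.1, ?_⟩
    rw [h1.2]
    refine Finset.prod_congr rfl fun i _ => ?_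
    exact (top_pow (f i) d (κ i) (hf i)).2
  have hκ : ∀ κ ∈ g.support, ∑ i, κ i ≤ a := by
    intro κ hκ
    have h1 := le_totalDegree hκ
    rw [Finsupp.sum_fintype _ _ (by simp)] at h1
    exact h1.trans hg
  have hsum : bind₁ f g = ∑ κ ∈ g.support, C (coeff κ g) * ∏ i, f i ^ κ i := by
    conv_lhs => rw [← support_sum_monomial_coeff g]
    rw [map_sum]
    exact Finset.sum_congr rfl fun κ _ => hm κ _
  constructor
  · rw [hsum]
    apply totalDegree_finsetSum_le
    intro κ h
    refine (totalDegree_mul _ _).trans ?_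
    rw [totalDegree_C, zero_add]
    exact (hprod κ).1.trans (Nat.mul_le_mul_left _ (hκ κ h))
  · rw [hsum, map_sum]
    have h2 : homogeneousComponent a g = ∑ κ ∈ g.support,
        homogeneousComponent a (monomial κ (coeff κ g)) := by
      conv_lhs => rw [← support_sum_monomial_coeff g, map_sum]
    rw [h2, map_sum]
    refine Finset.sum_congr rfl fun κ h => ?_
    have h3 : (monomial κ (coeff κ g)).IsHomogeneous (∑ i, κ i) := by
      apply isHomogeneous_monomial
      rw [Finsupp.degree_eq_sum]
    rw [homogeneousComponent_of_mem h3, homogeneousComponent_C_mul]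
    by_cases he : a = ∑ i, κ i
    · rw [if_pos he, he, (hprod κ).2, bind_mon]
    · rw [if_neg he, map_zero, homogeneousComponent_eq_zero, mul_zero]
      have h4 := (hprod κ).1
      have h5 := hκ κ h
      have h6 : d * ∑ i, κ i < d * a := Nat.mul_lt_mul_of_pos_left (by omega) (by omega)
      omega

/-- the chain rule -/
lemma pderiv_bind {ι : Type} [Fintype ι] (f : ι → MvPolynomial σ R) (g : MvPolynomial ι R)
    (j : σ) : pderiv j (bind₁ f g) = ∑ i, bind₁ f (pderiv i g) * pderiv j (f i) := by
  classical
  induction g using MvPolynomial.induction_on with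
  | C a => simp
  | add p q hp hq =>
    rw [map_add, map_add, hp, hq, ← Finset.sum_add_distrib]
    refine Finset.sum_congr rfl fun i _ => ?_
    rw [map_add, map_add]
    ring
  | mul_X p i hp =>
    rw [map_mul, bind₁_X_right, pderiv_mul, hp]
    have h1 : ∀ i', bind₁ f (pderiv i' (p * X i)) * pderiv j (f i') =
        bind₁ f (pderiv i' p) * pderiv j (f i') * f i +
          (if i' = i then bind₁ f p * pderiv j (f i) else 0) := by
      intro i'
      rw [pderiv_mul, pderiv_X, map_add, map_mul, map_mul, bind₁_X_right]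
      by_cases h : i' = i
      · subst h
        rw [Pi.single_eq_same, if_pos rfl, map_one]
        ring
      · rw [Pi.single_eq_of_ne (Ne.symm h), if_neg h, map_zero]
        ring
    simp_rw [h1]
    rw [Finset.sum_add_distrib, Finset.sum_ite_eq', if_pos (Finset.mem_univ _), Finset.sum_mul]

end top

end Pool.Agent.R847.SX
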