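import Mathlib
import Pool.Agent.R847.SX.Top

/-!
# Iterates, cones and tangent spaces
-/

set_option autoImplicit false

open MvPolynomial

namespace Pool.Agent.R847.SX

variable {k : Type} [Field k] {E : Type} [Field E] [Algebra k E] {N d : ℕ}

/-- the map given by polynomials -/
noncomputable def Sm (f : Fin (N + 1) → MvPolynomial (Fin (N + 1)) k) (w : Fin (N + 1) → E) :
    Fin (N + 1) → E := fun i => aeval w (f i)

/-- the polynomials of the iterates -/
noncomputable def it (f : Fin (N + 1) → MvPolynomial (Fin (N + 1)) k) (e : ℕ)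
    (i : Fin (N + 1)) : MvPolynomial (Fin (N + 1)) k := (bind₁ f)^[e] (X i)

lemma it_succ (f : Fin (N + 1) → MvPolynomial (Fin (N + 1)) k) (e : ℕ) (i : Fin (N + 1)) :
    it f (e + 1) i = bind₁ f (it f e i) := by
  unfold it
  rw [Function.iterate_succ_apply']

lemma aeval_bind (f : Fin (N + 1) → MvPolynomial (Fin (N + 1)) k) (w : Fin (N + 1) → E)
    (p : MvPolynomial (Fin (N + 1)) k) : aeval w (bind₁ f p) = aeval (Sm f w) p := by
  rw [aeval_bind₁]
  rfl

lemma Sm_it (f : Fin (N + 1) → MvPolynomial (Fin (N + 1)) k) (e : ℕ) (w : Fin (N + 1) → E) :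
    Sm (it f e) w = (Sm f)^[e] w := by
  induction e generalizing w with
  | zero =>
    funext i
    unfold Sm it
    simp
  | succ e ih =>
    funext i
    rw [Function.iterate_succ_apply, ← ih (Sm f w)]
    show aeval w (it f (e + 1) i) = aeval (Sm f w) (it f e i)
    rw [it_succ, aeval_bind]

/-- the leading forms of degree `d` -/
noncomputable def Fh (d : ℕ) (f : Fin (N + 1) → MvPolynomial (Fin (N + 1)) k)
    (i : Fin (N + 1)) : MvPolynomial (Fin (N + 1)) k := homogeneousComponent d (f i)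

lemma top_it (hd : d ≠ 0) (f : Fin (N + 1) → MvPolynomial (Fin (N + 1)) k)
    (hdeg : ∀ i, (f i).totalDegree ≤ d) (e : ℕ) (i : Fin (N + 1)) :
    (it f e i).totalDegree ≤ d ^ e ∧ homogeneousComponent (d ^ e) (it f e i) = it (Fh d f) e i := by
  induction e with
  | zero =>
    unfold it
    simp only [Function.iterate_zero, id, pow_zero]
    refine ⟨(isHomogeneous_X k i).totalDegree_le, ?_⟩
    rw [homogeneousComponent_of_mem (isHomogeneous_X k i), if_pos rfl]
  | succ e ih =>
    rw [it_succ, it_succ, pow_succ, mul_comm]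
    have h1 := top_bind d hd f hdeg (it f e i) (d ^ e) ih.1
    refine ⟨h1.1, ?_⟩
    rw [h1.2, ih.2]
    rfl

lemma grad_bind (f : Fin (N + 1) → MvPolynomial (Fin (N + 1)) k) (w h : Fin (N + 1) → E)
    (p : MvPolynomial (Fin (N + 1)) k) : ∑ j, aeval w (pderiv j (bind₁ f p)) * h j =
      ∑ j, aeval (Sm f w) (pderiv j p) * (JF f w).mulVec h j := by
  simp_rw [pderiv_bind, map_sum, map_mul, aeval_bind, Finset.sum_mul]
  rw [Finset.sum_comm]
  refine Finset.sum_congr rfl fun i _ => ?_
  unfold JF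
  rw [Matrix.mulVec, dotProduct, Finset.mul_sum]
  refine Finset.sum_congr rfl fun j _ => ?_
  rw [Matrix.of_apply]
  ring

lemma JF_it_succ (f : Fin (N + 1) → MvPolynomial (Fin (N + 1)) k) (e : ℕ)
    (w h : Fin (N + 1) → E) : (JF (it f (e + 1)) w).mulVec h =
      (JF (it f e) (Sm f w)).mulVec ((JF f w).mulVec h) := by
  funext i
  have h1 := grad_bind f w h (it f e i)
  rw [← it_succ] at h1
  exact h1

/-- the cone of the leading forms -/
def Cone (I : Set (MvPolynomial (Fin (N + 1)) k)) (w : Fin (N + 1) → E) : Prop :=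
  ∀ g ∈ I, aeval w (homogeneousComponent g.totalDegree g) = 0

/-- the tangent vectors of the cone of the leading forms -/
def Tan (I : Set (MvPolynomial (Fin (N + 1)) k)) (w h : Fin (N + 1) → E) : Prop :=
  ∀ g ∈ I, ∑ j, aeval w (pderiv j (homogeneousComponent g.totalDegree g)) * h j = 0

lemma Cone.comp {I : Set (MvPolynomial (Fin (N + 1)) k)} {w : Fin (N + 1) → E} (hw : Cone I w)
    (g : MvPolynomial (Fin (N + 1)) k) (hg : g ∈ I) (a : ℕ) (ha : g.totalDegree ≤ a) :
    aeval w (homogeneousComponent a g) = 0 := by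
  rcases ha.eq_or_lt with h | h
  · rw [← h]
    exact hw g hg
  · rw [homogeneousComponent_eq_zero _ _ h, map_zero]

lemma Tan.comp {I : Set (MvPolynomial (Fin (N + 1)) k)} {w h : Fin (N + 1) → E} (hw : Tan I w h)
    (g : MvPolynomial (Fin (N + 1)) k) (hg : g ∈ I) (a : ℕ) (ha : g.totalDegree ≤ a) :
    ∑ j, aeval w (pderiv j (homogeneousComponent a g)) * h j = 0 := by
  rcases ha.eq_or_lt with h' | h'
  · rw [← h']
    exact hw g hg
  · rw [homogeneousComponent_eq_zero _ _ h']
    simp

lemma Cone.step (hd : d ≠ 0) {f : Fin (N + 1) → MvPolynomial (Fin (N + 1)) k}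
    (hdeg : ∀ i, (f i).totalDegree ≤ d) {I : Set (MvPolynomial (Fin (N + 1)) k)}
    (hI : ∀ g ∈ I, bind₁ f g ∈ I) {w : Fin (N + 1) → E} (hw : Cone I w) :
    Cone I (Sm (Fh d f) w) := by
  intro g hg
  have h1 := top_bind d hd f hdeg g g.totalDegree le_rfl
  have h2 := hw.comp _ (hI g hg) _ h1.1
  rw [h1.2] at h2
  have h3 := aeval_bind (Fh d f) w (homogeneousComponent g.totalDegree g)
  rw [← h3]
  exact h2

lemma Tan.step (hd : d ≠ 0) {f : Fin (N + 1) → MvPolynomial (Fin (N + 1)) k}
    (hdeg : ∀ i, (f i).totalDegree ≤ d) {I : Set (MvPolynomial (Fin (N + 1)) k)}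
    (hI : ∀ g ∈ I, bind₁ f g ∈ I) {w h : Fin (N + 1) → E} (hw : Tan I w h) :
    Tan I (Sm (Fh d f) w) ((JF (Fh d f) w).mulVec h) := by
  intro g hg
  have h1 := top_bind d hd f hdeg g g.totalDegree le_rfl
  have h2 := hw.comp _ (hI g hg) _ h1.1
  rw [h1.2] at h2
  rw [← grad_bind]
  exact h2

/-- Iterates are unramified at the points of an unramified orbit. -/
lemma unram_it (hd : d ≠ 0) {f : Fin (N + 1) → MvPolynomial (Fin (N + 1)) k}
    (hdeg : ∀ i, (f i).totalDegree ≤ d) {I : Set (MvPolynomial (Fin (N + 1)) k)}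
    (hI : ∀ g ∈ I, bind₁ f g ∈ I) (e : ℕ) : ∀ (w : Fin (N + 1) → E),
    (∀ t h, Tan I ((Sm (Fh d f))^[t] w) h → (JF (Fh d f) ((Sm (Fh d f))^[t] w)).mulVec h = 0 →
      h = 0) → ∀ h, Tan I w h → (JF (it (Fh d f) e) w).mulVec h = 0 → h = 0 := by
  induction e with
  | zero =>
    intro w _ h _ h0
    have h1 : JF (it (Fh d f) 0) w = 1 := by
      classical
      ext i j
      unfold JF it
      simp only [Function.iterate_zero, id, Matrix.of_apply]
      rw [pderiv_X, Matrix.one_apply]
      by_cases hij : i = j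
      · subst hij
        rw [Pi.single_eq_same, if_pos rfl, map_one]
      · rw [Pi.single_eq_of_ne hij, if_neg hij, map_zero]
    rwa [h1, Matrix.one_mulVec] at h0
  | succ e ih =>
    intro w hU h hT h0
    rw [JF_it_succ] at h0
    have h1 := ih (Sm (Fh d f) w) (fun t h => by
      rw [← Function.iterate_succ_apply]
      exact hU (t + 1) h) _ (hT.step hd hdeg hI) h0
    exact hU 0 h hT h1

end Pool.Agent.R847.SX
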