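import Mathlib
import Pool.Agent.R847.SX.Iter

/-!
# Finitely many polynomials of a fixed degree that cut out the cone of the leading forms
-/

set_option autoImplicit false

open MvPolynomial

namespace Pool.Agent.R847.SX

variable {k : Type} [Field k] {N : ℕ}

lemma exists_gens (I : Ideal (MvPolynomial (Fin (N + 1)) k)) :
    ∃ D0 : ℕ, ∀ a ≥ D0, ∃ (M : ℕ) (g : Fin M → MvPolynomial (Fin (N + 1)) k),
      (∀ l, g l ∈ I) ∧ (∀ l, (g l).totalDegree ≤ a) ∧
      ∀ (E : Type) [Field E] [Algebra k E] (w : Fin (N + 1) → E), w ≠ 0 →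
        ((∀ l, aeval w (homogeneousComponent a (g l)) = 0) →
          Cone (I : Set (MvPolynomial (Fin (N + 1)) k)) w) ∧
        (Cone (I : Set (MvPolynomial (Fin (N + 1)) k)) w → ∀ h : Fin (N + 1) → E,
          (∀ l, ∑ j, aeval w (pderiv j (homogeneousComponent a (g l))) * h j = 0) →
            Tan (I : Set (MvPolynomial (Fin (N + 1)) k)) w h) := by
  classical
  set lead : MvPolynomial (Fin (N + 1)) k → MvPolynomial (Fin (N + 1)) k :=
    fun g => homogeneousComponent g.totalDegree g with hlead
  have hfg : (Submodule.span (MvPolynomial (Fin (N + 1)) k)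
      (lead '' (I : Set (MvPolynomial (Fin (N + 1)) k)))).FG := IsNoetherian.noetherian _
  obtain ⟨s, hs, hspan⟩ := (Submodule.fg_span_iff_fg_span_finset_subset _).1 hfg
  have hex : ∀ q : s, ∃ g ∈ I, lead g = q := by
    intro q
    obtain ⟨g, hg, h⟩ := hs q.2
    exact ⟨g, hg, h⟩
  choose g0 hg0 hlead0 using hex
  refine ⟨∑ q : s, (g0 q).totalDegree, fun a ha => ?_⟩
  have hdeg : ∀ q, (g0 q).totalDegree ≤ a := fun q =>
    (Finset.single_le_sum (f := fun q : s => (g0 q).totalDegree) (fun _ _ => Nat.zero_le _)
      (Finset.mem_univ q)).trans ha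
  set eq := Fintype.equivFin (s × Fin (N + 1)) with heq
  set g1 : s × Fin (N + 1) → MvPolynomial (Fin (N + 1)) k :=
    fun p => X p.2 ^ (a - (g0 p.1).totalDegree) * g0 p.1 with hg1
  have hX : ∀ (r : Fin (N + 1)) (b : ℕ),
      (X r ^ b : MvPolynomial (Fin (N + 1)) k).totalDegree ≤ b := fun r b =>
    (isHomogeneous_X_pow r b).totalDegree_le
  have htop : ∀ p, homogeneousComponent a (g1 p) =
      X p.2 ^ (a - (g0 p.1).totalDegree) * (p.1 : MvPolynomial (Fin (N + 1)) k) := by
    intro p
    have h1 := top_mul (X p.2 ^ (a - (g0 p.1).totalDegree)) (g0 p.1)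
      (a - (g0 p.1).totalDegree) (g0 p.1).totalDegree (hX _ _) le_rfl
    rw [Nat.sub_add_cancel (hdeg _), homogeneousComponent_of_mem (isHomogeneous_X_pow _ _),
      if_pos rfl] at h1
    rw [hg1]
    simp only
    rw [h1, ← hlead0 p.1]
  refine ⟨Fintype.card (s × Fin (N + 1)), fun l => g1 (eq.symm l), fun l => ?_, fun l => ?_, ?_⟩
  · exact Ideal.mul_mem_left _ _ (hg0 _)
  · refine (totalDegree_mul _ _).trans ?_
    have h1 := hX (eq.symm l).2 (a - (g0 (eq.symm l).1).totalDegree)
    have h2 := hdeg (eq.symm l).1
    omega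
  · intro E _ _ w hw
    obtain ⟨r, hr⟩ := Function.ne_iff.1 hw
    have hr' : w r ≠ 0 := hr
    constructor
    · intro h g hg
      have h1 : ∀ q ∈ s, aeval w q = 0 := by
        intro q hq
        have h2 := h (eq (⟨q, hq⟩, r))
        simp only [Equiv.symm_apply_apply] at h2
        rw [htop, map_mul, map_pow, aeval_X] at h2
        exact (mul_eq_zero.1 h2).resolve_left (pow_ne_zero _ hr')
      have h2 : lead g ∈ Submodule.span (MvPolynomial (Fin (N + 1)) k)
          (s : Set (MvPolynomial (Fin (N + 1)) k)) := by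
        rw [← hspan]
        exact Submodule.subset_span ⟨g, hg, rfl⟩
      have h3 : Submodule.span (MvPolynomial (Fin (N + 1)) k)
          (s : Set (MvPolynomial (Fin (N + 1)) k)) ≤
          RingHom.ker (aeval w : MvPolynomial (Fin (N + 1)) k →ₐ[k] E) := by
        rw [Submodule.span_le]
        intro q hq
        rw [SetLike.mem_coe, RingHom.mem_ker]
        exact h1 q hq
      exact RingHom.mem_ker.1 (h3 h2)
    · intro hC h hh g hg
      have h2 : lead g ∈ Submodule.span (MvPolynomial (Fin (N + 1)) k)
          (s : Set (MvPolynomial (Fin (N + 1)) k)) := by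
        rw [← hspan]
        exact Submodule.subset_span ⟨g, hg, rfl⟩
      have h3 : ∀ p ∈ Submodule.span (MvPolynomial (Fin (N + 1)) k)
          (s : Set (MvPolynomial (Fin (N + 1)) k)),
          aeval w p = 0 ∧ ∑ j, aeval w (pderiv j p) * h j = 0 := by
        intro p hp
        induction hp using Submodule.span_induction with
        | mem q hq =>
          have e1 : aeval w q = 0 := by
            have := hC _ (hg0 ⟨q, hq⟩)
            rw [show homogeneousComponent (g0 ⟨q, hq⟩).totalDegree (g0 ⟨q, hq⟩) = q from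
              hlead0 ⟨q, hq⟩] at this
            exact this
          refine ⟨e1, ?_⟩
          have e2 := hh (eq (⟨q, hq⟩, r))
          simp only [Equiv.symm_apply_apply] at e2
          rw [htop] at e2
          simp only [pderiv_mul, map_add, map_mul, map_pow, aeval_X] at e2
          rw [e1] at e2
          simp only [mul_zero, zero_add] at e2
          simp_rw [mul_assoc] at e2
          rw [← Finset.mul_sum] at e2
          exact (mul_eq_zero.1 e2).resolve_left (pow_ne_zero _ hr')
        | zero => simp
        | add p q _ _ hp hq =>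
          refine ⟨by rw [map_add, hp.1, hq.1, add_zero], ?_⟩
          simp only [map_add, add_mul, Finset.sum_add_distrib]
          rw [hp.2, hq.2, add_zero]
        | smul c p _ hp =>
          refine ⟨by rw [smul_eq_mul, map_mul, hp.1, mul_zero], ?_⟩
          simp only [smul_eq_mul, pderiv_mul, map_add, map_mul]
          rw [hp.1]
          simp only [mul_zero, zero_add]
          simp_rw [mul_assoc]
          rw [← Finset.mul_sum, hp.2, mul_zero]
      exact (h3 _ h2).2

end Pool.Agent.R847.SX
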