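import Mathlib
import Pool.Agent.R847.SX.Gen
import Pool.Agent.R847.SB.FinX

/-!
# Finitely many points at infinity
-/

set_option autoImplicit false

open MvPolynomial

namespace Pool.Agent.R847.SX

open Pool.Agent.R847.SN

variable {N : ℕ}

lemma hc_rename {σ τ : Type} (φ : σ → τ) (P : MvPolynomial σ ℂ) (e : ℕ)
    (he : P.totalDegree ≤ e) :
    homogeneousComponent e (rename φ P) = rename φ (homogeneousComponent e P) := by
  conv_lhs => rw [sum_hc P e he, map_sum, map_sum]
  rw [Finset.sum_range_succ, Finset.sum_eq_zero, zero_add]
  · have h1 : (rename φ (homogeneousComponent e P)).IsHomogeneous e :=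
      (homogeneousComponent_isHomogeneous e P).rename_isHomogeneous
    rw [homogeneousComponent_of_mem h1, if_pos rfl]
  · intro i hi
    rw [Finset.mem_range] at hi
    have h1 : (rename φ (homogeneousComponent i P)).IsHomogeneous i :=
      (homogeneousComponent_isHomogeneous i P).rename_isHomogeneous
    rw [homogeneousComponent_of_mem h1, if_neg (by omega)]

lemma top_ne_zero {σ : Type} (P : MvPolynomial σ ℂ) (hP : P ≠ 0) :
    homogeneousComponent P.totalDegree P ≠ 0 := by
  obtain ⟨κ, hκ, hκe⟩ := P.support.exists_mem_eq_sup (MvPolynomial.support_nonempty.2 hP)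
    (fun κ => κ.sum fun _ e => e)
  have h1 : coeff κ (homogeneousComponent P.totalDegree P) = coeff κ P := by
    rw [coeff_homogeneousComponent, if_pos]
    rw [totalDegree, hκe, Finsupp.degree_apply]
    rfl
  intro h0
  rw [h0, coeff_zero] at h1
  exact (mem_support_iff.1 hκ) h1.symm

/-- There are finitely many normalised points at infinity. -/
lemma fin_inf (V : Set (MvPolynomial (Fin (N + 1)) ℂ))
    (hV : ∀ i j, ∃ P : MvPolynomial (Fin 2) ℂ, P ≠ 0 ∧
      ∀ z : Fin (N + 1) → ℂ, (∀ h ∈ V, eval z h = 0) → eval ![z i, z j] P = 0)
    (i : Fin (N + 1)) : {z : Fin (N + 1) → ℂ | AtInf V z ∧ z i = 1}.Finite := by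
  classical
  have key : ∀ j, ∃ S : Set ℂ, S.Finite ∧ ∀ z : Fin (N + 1) → ℂ, AtInf V z → z i = 1 →
      z j ∈ S := by
    intro j
    by_cases hij : i = j
    · subst hij
      exact ⟨{1}, Set.finite_singleton _, fun z _ h => h⟩
    · obtain ⟨P, hP, hP0⟩ := hV i j
      set φ : Fin 2 → Fin (N + 1) := ![i, j] with hφ
      have hφi : Function.Injective φ := by
        intro a b hab
        fin_cases a <;> fin_cases b
        · rfl
        · exact absurd hab hij
        · exact absurd hab.symm hij
        · rfl
      set Q := homogeneousComponent P.totalDegree P with hQ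
      have hQ0 : Q ≠ 0 := top_ne_zero P hP
      have hL := line_ne_zero Q P.totalDegree (homogeneousComponent_isHomogeneous _ P) hQ0
      set L := aeval ![(1 : Polynomial ℂ), Polynomial.X] Q with hLdef
      refine ⟨L.roots.toFinset, L.roots.toFinset.finite_toSet, fun z hz hzi => ?_⟩
      rw [Finset.mem_coe, Multiset.mem_toFinset, Polynomial.mem_roots hL, Polynomial.IsRoot.def]
      have h1 := hz (rename φ P) (by
        intro w hw
        rw [eval_rename]
        have h2 := hP0 w hw
        rw [← h2]
        congr 2
        funext a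
        fin_cases a <;> rfl)
      have hdeg : (rename φ P).totalDegree = P.totalDegree := by
        apply le_antisymm (totalDegree_rename_le _ _)
        by_contra hlt
        push Not at hlt
        have h2 := homogeneousComponent_eq_zero _ _ hlt
        rw [hc_rename φ P _ le_rfl] at h2
        exact hQ0 (rename_injective φ hφi (by rw [h2, map_zero]))
      rw [hdeg, hc_rename φ P _ le_rfl, eval_rename] at h1
      have h2 : L.eval (z j) = eval (z ∘ φ) Q := by
        have h3 : L.eval (z j) = Polynomial.aeval (z j) L := by
          rw [Polynomial.coe_aeval_eq_eval]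
        rw [h3, hLdef]
        have h4 := comp_aeval_apply (σ := Fin 2) (![(1 : Polynomial ℂ), Polynomial.X])
          (Polynomial.aeval (R := ℂ) (z j)) Q
        refine h4.trans ?_
        have h5 : (fun a => (Polynomial.aeval (R := ℂ) (z j)) ((![(1 : Polynomial ℂ),
            Polynomial.X] : Fin 2 → Polynomial ℂ) a)) = z ∘ φ := by
          funext a
          fin_cases a
          · simp [hφ, hzi]
          · simp [hφ]
        rw [h5, ← coe_aeval_eq_eval]
        rfl
      rw [h2]
      exact h1
  choose S hS hSz using key
  apply (Set.Finite.pi' hS).subset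
  rintro z ⟨hz, hzi⟩ j
  exact hSz j z hz hzi

end Pool.Agent.R847.SX
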