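import Mathlib
import Pool.Agent.R847.SX.Inf

/-!
# Dynamical Mordell-Lang for curves and polarised endomorphisms of affine varieties
-/

set_option autoImplicit false

open MvPolynomial

namespace Pool.Agent.R847.SX

open Pool.Agent.R847.SN Pool.Agent.R847.SB

section gen

variable {k : Type} [Field k] {E : Type} [Field E] [Algebra k E] {N d : ℕ}

/-- the polynomials vanishing on an orbit -/
def VI (x : ℕ → Fin (N + 1) → k) : Ideal (MvPolynomial (Fin (N + 1)) k) where
  carrier := {g | ∀ n, aeval (x n) g = 0}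
  add_mem' := by
    intro a b ha hb n
    rw [map_add, ha n, hb n, add_zero]
  zero_mem' := fun n => map_zero _
  smul_mem' := by
    intro c g hg n
    rw [smul_eq_mul, map_mul, hg n, mul_zero]

lemma mem_VI (x : ℕ → Fin (N + 1) → k) (g : MvPolynomial (Fin (N + 1)) k) :
    g ∈ VI x ↔ ∀ n, aeval (x n) g = 0 := Iff.rfl

lemma VI_bind (f : Fin (N + 1) → MvPolynomial (Fin (N + 1)) k) (x : ℕ → Fin (N + 1) → k)
    (hx : ∀ n i, x (n + 1) i = aeval (x n) (f i)) (g : MvPolynomial (Fin (N + 1)) k)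
    (hg : g ∈ VI x) : bind₁ f g ∈ VI x := by
  rw [mem_VI] at hg ⊢
  intro n
  rw [aeval_bind]
  have h1 : Sm f (x n) = x (n + 1) := funext fun i => (hx n i).symm
  rw [h1]
  exact hg (n + 1)

lemma Sm_smul (f : Fin (N + 1) → MvPolynomial (Fin (N + 1)) k) (c : E)
    (w : Fin (N + 1) → E) : Sm (Fh d f) (c • w) = c ^ d • Sm (Fh d f) w :=
  Fs_smul f c w

lemma Sm_iter_smul (f : Fin (N + 1) → MvPolynomial (Fin (N + 1)) k) (c : E)
    (w : Fin (N + 1) → E) (t : ℕ) :
    (Sm (Fh d f))^[t] (c • w) = c ^ d ^ t • (Sm (Fh d f))^[t] w :=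
  Fs_iter_smul f c w t

lemma Sm_zero (hd : d ≠ 0) (f : Fin (N + 1) → MvPolynomial (Fin (N + 1)) k) :
    Sm (Fh d f) (0 : Fin (N + 1) → E) = 0 := by
  have h1 := Sm_smul (E := E) (d := d) f 0 0
  rwa [zero_pow hd, zero_smul, zero_smul] at h1

lemma Sm_iter_zero (hd : d ≠ 0) (f : Fin (N + 1) → MvPolynomial (Fin (N + 1)) k) (t : ℕ) :
    (Sm (Fh d f))^[t] (0 : Fin (N + 1) → E) = 0 := by
  induction t with
  | zero => rfl
  | succ t ih => rw [Function.iterate_succ_apply', ih, Sm_zero hd]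

lemma Cone.iter (hd : d ≠ 0) {f : Fin (N + 1) → MvPolynomial (Fin (N + 1)) k}
    (hdeg : ∀ i, (f i).totalDegree ≤ d) {I : Set (MvPolynomial (Fin (N + 1)) k)}
    (hI : ∀ g ∈ I, bind₁ f g ∈ I) {w : Fin (N + 1) → E} (hw : Cone I w) (t : ℕ) :
    Cone I ((Sm (Fh d f))^[t] w) := by
  induction t with
  | zero => exact hw
  | succ t ih =>
    rw [Function.iterate_succ_apply']
    exact ih.step hd hdeg hI

lemma Cone.smul {I : Set (MvPolynomial (Fin (N + 1)) k)} {w : Fin (N + 1) → E} (hw : Cone I w)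
    (c : E) : Cone I (c • w) := by
  intro g hg
  have h1 := aeval_scale (homogeneousComponent g.totalDegree g) g.totalDegree
    (homogeneousComponent_isHomogeneous _ g) c w
  have h2 : (c • w) = fun i => c * w i := rfl
  rw [h2, h1, hw g hg, mul_zero]

lemma iter_zero (hd : d ≠ 0) {f : Fin (N + 1) → MvPolynomial (Fin (N + 1)) k}
    (hdeg : ∀ i, (f i).totalDegree ≤ d) {I : Set (MvPolynomial (Fin (N + 1)) k)}
    (hI : ∀ g ∈ I, bind₁ f g ∈ I)
    (hR : ∀ z : Fin (N + 1) → E, Cone I z → (∀ i, aeval z (Fh d f i) = 0) → z = 0) (t : ℕ) :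
    ∀ z : Fin (N + 1) → E, Cone I z → (Sm (Fh d f))^[t] z = 0 → z = 0 := by
  induction t with
  | zero => intro z _ h; exact h
  | succ t ih =>
    intro z hz h
    rw [Function.iterate_succ_apply] at h
    have h1 := ih _ (hz.step hd hdeg hI) h
    exact hR z hz fun i => congrFun h1 i

/-- iterates modulo the period -/
lemma iter_mod (f : Fin (N + 1) → MvPolynomial (Fin (N + 1)) k) (z : Fin (N + 1) → E)
    (l : ℕ) (c : E) (hc : c ≠ 0) (h : (Sm (Fh d f))^[l] z = c • z) (q : ℕ) :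
    ∀ s, ∃ κ : E, κ ≠ 0 ∧ (Sm (Fh d f))^[s + l * q] z = κ • (Sm (Fh d f))^[s] z := by
  induction q with
  | zero =>
    intro s
    exact ⟨1, one_ne_zero, by simp⟩
  | succ q ih =>
    intro s
    obtain ⟨κ, hκ, h1⟩ := ih s
    have h2 : s + l * (q + 1) = (s + l * q) + l := by ring
    rw [h2, Function.iterate_add_apply, h, Sm_iter_smul, h1, smul_smul]
    exact ⟨_, mul_ne_zero (pow_ne_zero _ hc) hκ, rfl⟩

end gen

end Pool.Agent.R847.SX
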