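import Mathlib
import Pool.Agent.R847.SX.Main

/-!
# Dynamical Mordell-Lang for curves and polarised endomorphisms of affine varieties
-/

set_option autoImplicit false

open MvPolynomial

namespace Pool.Agent.R847.SX

open Pool.Agent.R847.SN Pool.Agent.R847.SB

variable {k : Type} [Field k] [NumberField k] [Algebra k ℂ] {N : ℕ}

omit [NumberField k] in
lemma ev_map (z : Fin (N + 1) → ℂ) (p : MvPolynomial (Fin (N + 1)) k) :
    eval z (map (algebraMap k ℂ) p) = aeval z p := by
  rw [aeval_def, eval₂_eq_eval_map]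

omit [NumberField k] in
lemma lead_map (g : MvPolynomial (Fin (N + 1)) k) :
    homogeneousComponent (map (algebraMap k ℂ) g).totalDegree (map (algebraMap k ℂ) g) =
      map (algebraMap k ℂ) (homogeneousComponent g.totalDegree g) := by
  have h1 : (map (algebraMap k ℂ) g).totalDegree = g.totalDegree := by
    unfold totalDegree
    rw [support_map_of_injective _ (algebraMap k ℂ).injective]
  rw [h1]
  ext κ
  rw [coeff_map, coeff_homogeneousComponent, coeff_homogeneousComponent, coeff_map]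
  split_ifs
  · rfl
  · rw [map_zero]

lemma AtInf_smul (V : Set (MvPolynomial (Fin (N + 1)) ℂ)) (z : Fin (N + 1) → ℂ)
    (h : AtInf V z) (c : ℂ) : AtInf V (c • z) := by
  intro g hg
  have h1 := aeval_scale (homogeneousComponent g.totalDegree g) g.totalDegree
    (homogeneousComponent_isHomogeneous _ g) c z
  have h2 : (c • z) = fun i => c * z i := rfl
  rw [h2, ← coe_aeval_eq_eval]
  refine h1.trans ?_
  have h3 := h g hg
  rw [← coe_aeval_eq_eval] at h3
  have h4 : aeval z (homogeneousComponent g.totalDegree g) = 0 := h3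
  rw [h4, mul_zero]

/-- **Dynamical Mordell-Lang for curves**, for maps that are regular at infinity of the closure of
the orbit. -/
theorem dml_X (d : ℕ) (hd : 2 ≤ d) (f : Fin (N + 1) → MvPolynomial (Fin (N + 1)) k)
    (hdeg : ∀ i, (f i).totalDegree ≤ d)
    (x : ℕ → Fin (N + 1) → k) (hx : ∀ n i, x (n + 1) i = aeval (x n) (f i))
    (hR : ∀ z : Fin (N + 1) → AlgebraicClosure k, Cone (VI x : Set (MvPolynomial (Fin (N + 1)) k)) z →
      (∀ i, aeval z (Fh d f i) = 0) → z = 0)
    (V : Set (MvPolynomial (Fin (N + 1)) ℂ))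
    (hV : ∀ i j, ∃ P : MvPolynomial (Fin 2) ℂ, P ≠ 0 ∧
      ∀ z : Fin (N + 1) → ℂ, (∀ h ∈ V, eval z h = 0) → eval ![z i, z j] P = 0)
    (hper : ∀ z : Fin (N + 1) → ℂ, z ≠ 0 → AtInf V z → Cone (VI x : Set (MvPolynomial (Fin (N + 1)) k)) z → ∀ l ≥ 1,
      ∀ c : ℂ, c ≠ 0 → (Sm (Fh d f))^[l] z = c • z → ∀ t h,
        Tan (VI x : Set (MvPolynomial (Fin (N + 1)) k)) ((Sm (Fh d f))^[t] z) h →
        (JF (Fh d f) ((Sm (Fh d f))^[t] z)).mulVec h = 0 → h = 0) :
    ∃ T : Finset (ℕ × ℕ), {n : ℕ | ∀ h ∈ V, eval (fun i => algebraMap k ℂ (x n i)) h = 0} =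
      {n : ℕ | ∃ q ∈ T, ∃ m : ℕ, n = q.1 * m + q.2} := by
  classical
  have hd0 : d ≠ 0 := by omega
  set I : Set (MvPolynomial (Fin (N + 1)) k) := (VI x : Set (MvPolynomial (Fin (N + 1)) k))
    with hIdef
  have hI : ∀ g ∈ I, bind₁ f g ∈ I := fun g hg => VI_bind f x hx g hg
  -- the generators and the iterate
  obtain ⟨D0, hD0⟩ := exists_gens (VI x)
  set e := D0 + 1 with he
  set a := d ^ e with ha
  have ha2 : 2 ≤ a := by
    calc 2 ≤ d := hd
      _ = d ^ 1 := (pow_one d).symm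
      _ ≤ d ^ e := Nat.pow_le_pow_right (by omega) (by omega)
  have haD : D0 ≤ a := by
    have h1 : e < 2 ^ e := Nat.lt_two_pow_self
    have h2 : 2 ^ e ≤ d ^ e := Nat.pow_le_pow_left hd e
    omega
  obtain ⟨M, g, hgI, hgdeg, hgen⟩ := hD0 a haD
  -- the normalised periodic points at infinity
  set Per : (Fin (N + 1) → ℂ) → Prop := fun z => ∃ l ≥ 1, ∃ c : ℂ, c ≠ 0 ∧
    (Sm (Fh d f))^[l] z = c • z with hPer
  set Zs : Set (Fin (N + 1) → ℂ) := {z | (∃ i, AtInf V z ∧ z i = 1) ∧ Cone I z ∧ Per z} with hZs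
  have hZfin : Zs.Finite := by
    have h1 : (⋃ i, {z : Fin (N + 1) → ℂ | AtInf V z ∧ z i = 1}).Finite :=
      Set.finite_iUnion fun i => fin_inf V hV i
    refine h1.subset ?_
    rintro z ⟨⟨i, hz⟩, _⟩
    exact Set.mem_iUnion.2 ⟨i, hz⟩
  have hPz : ∀ z : Zs, ∃ l ≥ 1, ∃ c : ℂ, c ≠ 0 ∧
      (Sm (Fh d f))^[l] (z : Fin (N + 1) → ℂ) = c • (z : Fin (N + 1) → ℂ) := fun z => z.2.2.2
  choose l0 hl0 c0 hc0 hlc using hPz
  have hne0 : ∀ z : Zs, (z : Fin (N + 1) → ℂ) ≠ 0 := by
    rintro ⟨z, ⟨i, _, hzi⟩, _⟩ h0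
    exact one_ne_zero (hzi.symm.trans (congrFun h0 i))
  have := hZfin.fintype
  set Ws : Finset (Fin (N + 1) → ℂ) := Finset.univ.biUnion fun z : Zs =>
    (Finset.range (l0 z)).image fun t => (Sm (Fh d f))^[t] (z : Fin (N + 1) → ℂ) with hWs
  -- the modification
  obtain ⟨c, hc1, hc2⟩ := exists_mod a (it (Fh d f) e) (fun l => homogeneousComponent a (g l))
    (fun i => by
      rw [← (top_it hd0 f hdeg e i).2]
      exact homogeneousComponent_isHomogeneous _ _)
    (fun l => homogeneousComponent_isHomogeneous _ _)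
    (by
      intro z hz1 hz2
      by_cases hz0 : z = 0
      · exact hz0
      · have h1 := (hgen (AlgebraicClosure k) z hz0).1 hz1
        apply iter_zero hd0 hdeg hI hR e z h1
        rw [← Sm_it]
        exact funext hz2) Ws (by
      intro w hw h hh h0
      rw [hWs, Finset.mem_biUnion] at hw
      obtain ⟨z, _, hw⟩ := hw
      rw [Finset.mem_image] at hw
      obtain ⟨t, ht, rfl⟩ := hw
      rw [Finset.mem_range] at ht
      have hcone : Cone I ((Sm (Fh d f))^[t] (z : Fin (N + 1) → ℂ)) :=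
        Cone.iter hd0 hdeg hI z.2.2.1 t
      have hwne : (Sm (Fh d f))^[t] (z : Fin (N + 1) → ℂ) ≠ 0 := by
        intro h1
        have h2 := hlc z
        have h3 : l0 z = (l0 z - t) + t := by omega
        rw [h3, Function.iterate_add_apply, h1, Sm_iter_zero hd0] at h2
        have h4 := smul_eq_zero.1 h2.symm
        exact h4.elim (hc0 z) (hne0 z)
      have hT : Tan I ((Sm (Fh d f))^[t] (z : Fin (N + 1) → ℂ)) h :=
        (hgen ℂ _ hwne).2 hcone h fun l => hh l
      obtain ⟨i, hzi, _⟩ := z.2.1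
      refine unram_it hd0 hdeg hI e _ ?_ h hT h0
      intro t' h' hT' h0'
      rw [← Function.iterate_add_apply] at hT' h0'
      exact hper z (hne0 z) hzi z.2.2.1 (l0 z) (hl0 z) (c0 z) (hc0 z) (hlc z) _ h' hT' h0')
  set f' : Fin (N + 1) → MvPolynomial (Fin (N + 1)) k := fun i =>
    it f e i + ∑ l, C (c i l) * g l with hf'
  have hf'deg : ∀ i, (f' i).totalDegree ≤ a := by
    intro i
    refine (totalDegree_add _ _).trans (max_le (top_it hd0 f hdeg e i).1 ?_)
    apply totalDegree_finsetSum_le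
    intro l _
    refine (totalDegree_mul _ _).trans ?_
    rw [totalDegree_C, zero_add]
    exact hgdeg l
  have hf'top : Fh a f' = Ft (it (Fh d f) e) (fun l => homogeneousComponent a (g l)) c := by
    funext i
    unfold Fh Ft
    rw [hf']
    simp only
    rw [map_add, (top_it hd0 f hdeg e i).2, map_sum]
    congr 1
    refine Finset.sum_congr rfl fun l _ => ?_
    rw [homogeneousComponent_C_mul]
  have hreg : Reg a f' := by
    intro z hz
    apply hc1 z
    intro i
    rw [← hf'top]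
    exact hz i
  -- the dynamics on the cone
  have hcone1 : ∀ w : Fin (N + 1) → ℂ, Cone I w → Sm (Fh a f') w = (Sm (Fh d f))^[e] w := by
    intro w hw
    rw [← Sm_it, hf'top]
    funext i
    unfold Sm Ft
    rw [map_add, map_sum, Finset.sum_eq_zero, add_zero]
    intro l _
    rw [map_mul, hw.comp (g l) (hgI l) a (hgdeg l), mul_zero]
  have hcone2 : ∀ (w : Fin (N + 1) → ℂ), Cone I w → ∀ t,
      (Sm (Fh a f'))^[t] w = (Sm (Fh d f))^[e * t] w := by
    intro w hw t
    induction t with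
    | zero => rfl
    | succ t ih =>
      rw [Function.iterate_succ_apply', ih, hcone1 _ (Cone.iter hd0 hdeg hI hw _),
        ← Function.iterate_add_apply]
      congr 1
      ring
  -- the extended equations
  set V' : Set (MvPolynomial (Fin (N + 1)) ℂ) := V ∪ (map (algebraMap k ℂ)) '' I with hV'
  have hinfV : ∀ z, AtInf V' z → AtInf V z := by
    intro z hz q hq
    apply hz q
    intro w hw
    exact hq w fun h hh => hw h (Or.inl hh)
  have hinfI : ∀ z, AtInf V' z → Cone I z := by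
    intro z hz q hq
    have h1 := hz (map (algebraMap k ℂ) q) (fun w hw => hw _ (Or.inr ⟨q, hq, rfl⟩))
    rw [lead_map, ev_map] at h1
    exact h1
  have hper' : ∀ z : Fin (N + 1) → ℂ, z ≠ 0 → AtInf V' z → ∀ l ≥ 1, ∀ c' : ℂ, c' ≠ 0 →
      (Fs a f')^[l] z = c' • z → ∀ i, (Dm a f' ((Fs a f')^[i] z)).det ≠ 0 := by
    intro z hz hzinf l hl c' hc' hlz t
    have hzC := hinfI z hzinf
    have hzV := hinfV z hzinf
    have hFsSm : (Fs a f' : (Fin (N + 1) → ℂ) → Fin (N + 1) → ℂ) = Sm (Fh a f') := rfl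
    rw [hFsSm] at hlz ⊢
    rw [hcone2 z hzC] at hlz ⊢
    obtain ⟨i, hi⟩ := Function.ne_iff.1 hz
    have hi' : z i ≠ 0 := hi
    set z0 : Fin (N + 1) → ℂ := (z i)⁻¹ • z with hz0
    have hzz0 : z = z i • z0 := by
      rw [hz0, smul_smul, mul_inv_cancel₀ hi', one_smul]
    have hz0mem : z0 ∈ Zs := by
      refine ⟨⟨i, AtInf_smul V z hzV _, ?_⟩, hzC.smul _, e * l, ?_, ?_⟩
      · rw [hz0, Pi.smul_apply, smul_eq_mul, inv_mul_cancel₀ hi']
      · exact Nat.one_le_iff_ne_zero.2 (Nat.mul_ne_zero (by omega) (by omega))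
      · refine ⟨((z i)⁻¹) ^ d ^ (e * l) * c' * z i, mul_ne_zero (mul_ne_zero
          (pow_ne_zero _ (inv_ne_zero hi')) hc') hi', ?_⟩
        rw [hz0, Sm_iter_smul, hlz, smul_smul, smul_smul]
        congr 1
        field_simp
    set zz : Zs := ⟨z0, hz0mem⟩ with hzz
    set L := l0 zz with hL
    set T := e * t with hT
    obtain ⟨κ, hκ, hκz⟩ := iter_mod f z0 L (c0 zz) (hc0 zz) (hlc zz) (T / L) (T % L)
    rw [Nat.mod_add_div] at hκz
    have hwW : (Sm (Fh d f))^[T % L] z0 ∈ Ws := by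
      rw [hWs, Finset.mem_biUnion]
      refine ⟨zz, Finset.mem_univ _, ?_⟩
      rw [Finset.mem_image]
      refine ⟨T % L, ?_, rfl⟩
      rw [Finset.mem_range]
      exact Nat.mod_lt _ (hl0 zz)
    have h1 := hc2 _ hwW
    have h2 : (Sm (Fh d f))^[T] z = (z i ^ d ^ T * κ) • (Sm (Fh d f))^[T % L] z0 := by
      conv_lhs => rw [hzz0]
      rw [Sm_iter_smul, hκz, smul_smul]
    rw [h2, Dm_scale]
    apply mul_ne_zero (pow_ne_zero _ (mul_ne_zero (pow_ne_zero _ hi') hκ))
    have h3 : Dm a f' ((Sm (Fh d f))^[T % L] z0) =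
        JF (Ft (it (Fh d f) e) (fun l => homogeneousComponent a (g l)) c)
          ((Sm (Fh d f))^[T % L] z0) := by
      rw [← hf'top]
      rfl
    rw [h3]
    exact h1
  -- the residue classes
  have hstep : ∀ n, Sm f (x n) = x (n + 1) := fun n => funext fun i => (hx n i).symm
  have hsteps : ∀ t n, (Sm f)^[t] (x n) = x (n + t) := by
    intro t
    induction t with
    | zero => intro n; rfl
    | succ t ih =>
      intro n
      rw [Function.iterate_succ_apply, hstep, ih]
      congr 1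
      ring
  have hres : ∀ r : ℕ, ∃ T : Finset (ℕ × ℕ),
      {n : ℕ | ∀ h ∈ V', eval (fun i => algebraMap k ℂ (x (r + e * n) i)) h = 0} =
      {n : ℕ | ∃ q ∈ T, ∃ m : ℕ, n = q.1 * m + q.2} := by
    intro r
    apply dml_k' a ha2 f' hf'deg hreg V' ?_ hper' (fun n => x (r + e * n))
    · intro n i
      have h1 : x (r + e * (n + 1)) = (Sm f)^[e] (x (r + e * n)) := by
        rw [hsteps]
        congr 1
        ring
      show x (r + e * (n + 1)) i = aeval (x (r + e * n)) (f' i)
      rw [h1, ← Sm_it, hf']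
      simp only
      rw [map_add, map_sum, Finset.sum_eq_zero, add_zero]
      · rfl
      · intro l _
        rw [map_mul, (mem_VI x (g l)).1 (hgI l), mul_zero]
    · intro i j
      obtain ⟨P, hP, h⟩ := hV i j
      exact ⟨P, hP, fun z hz => h z fun q hq => hz q (Or.inl hq)⟩
  choose T hT using hres
  refine ⟨(Finset.range e).biUnion fun r => (T r).image fun q => (e * q.1, r + e * q.2), ?_⟩
  ext n
  simp only [Set.mem_ofPred_eq, Finset.mem_biUnion, Finset.mem_range, Finset.mem_image]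
  have hVV : ∀ n, (∀ h ∈ V', eval (fun i => algebraMap k ℂ (x n i)) h = 0) ↔
      ∀ h ∈ V, eval (fun i => algebraMap k ℂ (x n i)) h = 0 := by
    intro n
    constructor
    · intro h q hq
      exact h q (Or.inl hq)
    · rintro h q (hq | ⟨q', hq', rfl⟩)
      · exact h q hq
      · rw [ev_map]
        have h1 : aeval (fun i => algebraMap k ℂ (x n i)) q' =
            algebraMap k ℂ (aeval (x n) q') := (map_aevalk (x n) q').symm
        rw [h1, (mem_VI x q').1 hq' n, map_zero]
  constructor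
  · intro h
    have h1 : n % e + e * (n / e) = n := Nat.mod_add_div n e
    have h2 : n / e ∈ {m : ℕ | ∀ h ∈ V', eval (fun i => algebraMap k ℂ
        (x (n % e + e * m) i)) h = 0} := by
      show ∀ h ∈ V', eval (fun i => algebraMap k ℂ (x (n % e + e * (n / e)) i)) h = 0
      rw [h1]
      exact (hVV n).2 h
    rw [hT] at h2
    obtain ⟨q, hq, m, hm⟩ := h2
    refine ⟨(e * q.1, n % e + e * q.2), ⟨n % e, Nat.mod_lt _ (by omega), q, hq, rfl⟩, m, ?_⟩
    show n = e * q.1 * m + (n % e + e * q.2)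
    calc n = n % e + e * (n / e) := h1.symm
      _ = n % e + e * (q.1 * m + q.2) := by rw [hm]
      _ = e * q.1 * m + (n % e + e * q.2) := by ring
  · rintro ⟨q', ⟨r, hr, q, hq, rfl⟩, m, hm⟩
    have h2 : q.1 * m + q.2 ∈ {m : ℕ | ∀ h ∈ V', eval (fun i => algebraMap k ℂ
        (x (r + e * m) i)) h = 0} := by
      rw [hT]
      exact ⟨q, hq, m, rfl⟩
    have h3 : n = r + e * (q.1 * m + q.2) := by
      rw [hm]
      show e * q.1 * m + (r + e * q.2) = _
      ring
    rw [h3]
    exact (hVV _).1 h2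

end Pool.Agent.R847.SX
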