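import Mathlib
import Pool.Agent.R847.SX.Dml

/-!
# The complex version
-/

set_option autoImplicit false

open MvPolynomial

namespace Pool.Agent.R847.SX

open Pool.Agent.R847.SN Pool.Agent.R847.SB

variable {N : ℕ}

section decomp

variable {k : Type} [Field k] [Algebra k ℂ]

/-- A complex polynomial is a combination of its images under functionals. -/
lemma exists_decomp (P : MvPolynomial (Fin (N + 1)) ℂ) :
    ∃ (n : ℕ) (b : Fin n → ℂ) (φ : Fin n → Module.Dual k ℂ),
      P = ∑ t, C (b t) * map (algebraMap k ℂ) (cmp (φ t) P) := by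
  classical
  set b := Module.Basis.ofVectorSpace k ℂ with hb
  set s := P.support.biUnion fun κ => (b.repr (coeff κ P)).support with hs
  have h1 : ∀ κ, coeff κ P = ∑ t ∈ s, (b.repr (coeff κ P) t) • b t := by
    intro κ
    by_cases hκ : κ ∈ P.support
    · conv_lhs => rw [← b.linearCombination_repr (coeff κ P)]
      rw [Finsupp.linearCombination_apply, Finsupp.sum]
      apply Finset.sum_subset
      · intro t ht
        exact Finset.mem_biUnion.2 ⟨κ, hκ, ht⟩
      · intro t _ ht
        rw [Finsupp.notMem_support_iff.1 ht, zero_smul]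
    · rw [notMem_support_iff.1 hκ]
      simp
  set eq := s.equivFin with heq
  refine ⟨s.card, fun t => b (eq.symm t), fun t => b.coord (eq.symm t), ?_⟩
  ext κ
  rw [coeff_sum]
  conv_lhs => rw [h1 κ]
  rw [← Finset.sum_coe_sort, ← Equiv.sum_comp eq.symm]
  refine Finset.sum_congr rfl fun t _ => ?_
  rw [coeff_C_mul, coeff_map, coeff_cmp, Algebra.smul_def, mul_comm]
  rfl

/-- Linear conditions on the gradients pass to complex polynomials. -/
lemma grad_zero (P : MvPolynomial (Fin (N + 1)) ℂ) (w h : Fin (N + 1) → ℂ)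
    (hP : ∀ φ : Module.Dual k ℂ, ∑ j, aeval w (pderiv j (cmp φ P)) * h j = 0) :
    ∑ j, eval w (pderiv j P) * h j = 0 := by
  obtain ⟨n, b, φ, hd⟩ := exists_decomp (k := k) P
  have h1 : ∀ j, eval w (pderiv j P) * h j =
      ∑ t, b t * (aeval w (pderiv j (cmp (φ t) P)) * h j) := by
    intro j
    conv_lhs => rw [hd]
    rw [map_sum, map_sum, Finset.sum_mul]
    refine Finset.sum_congr rfl fun t _ => ?_
    rw [pderiv_C_mul, map_mul, eval_C, pderiv_map, ev_map, mul_assoc]
  simp_rw [h1]
  rw [Finset.sum_comm]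
  apply Finset.sum_eq_zero
  intro t _
  rw [← Finset.mul_sum, hP, mul_zero]

end decomp

/-- The complex version. -/
theorem dml_XC (d : ℕ) (hd : 2 ≤ d) (f : Fin (N + 1) → MvPolynomial (Fin (N + 1)) ℂ)
    (hdeg : ∀ i, (f i).totalDegree ≤ d) (halg : ∀ i κ, IsAlgebraic ℚ (coeff κ (f i)))
    (Y : Set (MvPolynomial (Fin (N + 1)) ℂ))
    (hY : ∀ z : Fin (N + 1) → ℂ, (∀ h ∈ Y, eval z h = 0) →
      ∀ h ∈ Y, eval (fun i => eval z (f i)) h = 0)
    (hreg : ∀ z : Fin (N + 1) → ℂ, AtInf Y z →
      (∀ i, eval z (homogeneousComponent d (f i)) = 0) → z = 0)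
    (V : Set (MvPolynomial (Fin (N + 1)) ℂ))
    (hV : ∀ i j, ∃ P : MvPolynomial (Fin 2) ℂ, P ≠ 0 ∧
      ∀ z : Fin (N + 1) → ℂ, (∀ h ∈ V, eval z h = 0) → eval ![z i, z j] P = 0)
    (hper : ∀ z : Fin (N + 1) → ℂ, z ≠ 0 → AtInf V z → ∀ l ≥ 1, ∀ c : ℂ, c ≠ 0 →
      (fun w i => eval w (homogeneousComponent d (f i)))^[l] z = c • z →
      ∀ t, ∀ h : Fin (N + 1) → ℂ,
        (∀ g : MvPolynomial (Fin (N + 1)) ℂ, (∀ z, (∀ h ∈ Y, eval z h = 0) → eval z g = 0) →
          ∑ j, eval ((fun w i => eval w (homogeneousComponent d (f i)))^[t] z)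
            (pderiv j (homogeneousComponent g.totalDegree g)) * h j = 0) →
        (∀ a, ∑ j, eval ((fun w i => eval w (homogeneousComponent d (f i)))^[t] z)
            (pderiv j (homogeneousComponent d (f a))) * h j = 0) → h = 0)
    (x : ℕ → Fin (N + 1) → ℂ) (hx : ∀ n i, x (n + 1) i = eval (x n) (f i))
    (hx0 : ∀ i, IsAlgebraic ℚ (x 0 i)) (hxY : ∀ h ∈ Y, eval (x 0) h = 0) :
    ∃ T : Finset (ℕ × ℕ), {n : ℕ | ∀ h ∈ V, eval (x n) h = 0} =
      {n : ℕ | ∃ q ∈ T, ∃ m : ℕ, n = q.1 * m + q.2} := by
  classical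
  -- the field of the coefficients and the coordinates
  set T0 : Set ℂ := (⋃ i, ⋃ κ ∈ (f i).support, {coeff κ (f i)}) ∪ (⋃ i, {x 0 i}) with hT0
  have hT0f : T0.Finite := by
    apply Set.Finite.union
    · exact Set.finite_iUnion fun i => Set.Finite.biUnion (f i).support.finite_toSet
        fun κ _ => Set.finite_singleton _
    · exact Set.finite_iUnion fun i => Set.finite_singleton _
  have hT0a : ∀ t ∈ T0, IsIntegral ℚ t := by
    intro t ht
    apply IsAlgebraic.isIntegral
    rcases ht with ht | ht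
    · simp only [Set.mem_iUnion] at ht
      obtain ⟨i, κ, _, rfl⟩ := ht
      exact halg i κ
    · simp only [Set.mem_iUnion] at ht
      obtain ⟨i, rfl⟩ := ht
      exact hx0 i
  set k : IntermediateField ℚ ℂ := IntermediateField.adjoin ℚ T0 with hk
  have hfd : FiniteDimensional ℚ k := by
    have := hT0f.to_subtype
    exact IntermediateField.finiteDimensional_adjoin hT0a
  have : NumberField k := { to_charZero := inferInstance, to_finiteDimensional := hfd }
  have hcm : ∀ i κ, coeff κ (f i) ∈ k := by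
    intro i κ
    by_cases hκ : κ ∈ (f i).support
    · apply IntermediateField.subset_adjoin
      left
      simp only [Set.mem_iUnion]
      exact ⟨i, κ, hκ, rfl⟩
    · rw [notMem_support_iff.1 hκ]
      exact zero_mem _
  have hx0m : ∀ i, x 0 i ∈ k := by
    intro i
    apply IntermediateField.subset_adjoin
    right
    simp only [Set.mem_iUnion]
    exact ⟨i, rfl⟩
  have hf' : ∀ i, ∃ g : MvPolynomial (Fin (N + 1)) k, map (algebraMap k ℂ) g = f i := by
    intro i
    refine ⟨∑ κ ∈ (f i).support, monomial κ ⟨coeff κ (f i), hcm i κ⟩, ?_⟩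
    rw [map_sum]
    simp_rw [map_monomial]
    conv_rhs => rw [← support_sum_monomial_coeff (f i)]
    rfl
  choose g hg using hf'
  have hinjk : Function.Injective (algebraMap k ℂ) := (algebraMap k ℂ).injective
  have hhc : ∀ i, homogeneousComponent d (f i) =
      map (algebraMap k ℂ) (homogeneousComponent d (g i)) := by
    intro i
    rw [← hg i]
    ext κ
    rw [coeff_map, coeff_homogeneousComponent, coeff_homogeneousComponent, coeff_map]
    split_ifs
    · rfl
    · rw [map_zero]
  -- the orbit
  set x' : ℕ → Fin (N + 1) → k := fun n => (fun z i => aeval z (g i))^[n]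
    (fun i => ⟨x 0 i, hx0m i⟩) with hx'
  have hx'x : ∀ n i, algebraMap k ℂ (x' n i) = x n i := by
    intro n
    induction n with
    | zero =>
      intro i
      rfl
    | succ n ih =>
      intro i
      rw [hx']
      simp only [Function.iterate_succ_apply']
      rw [map_aevalk, hx, ← hg i, ev_map]
      congr 2
      funext r
      exact ih r
  have hx'x' : ∀ n, (fun i => algebraMap k ℂ (x' n i)) = x n := fun n => funext (hx'x n)
  have hgdeg : ∀ i, (g i).totalDegree ≤ d := by
    intro i
    refine le_trans ?_ (hdeg i)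
    rw [← hg i]
    unfold totalDegree
    rw [support_map_of_injective _ hinjk]
  have hSm : (Sm (Fh d g) : (Fin (N + 1) → ℂ) → Fin (N + 1) → ℂ) =
      fun w i => eval w (homogeneousComponent d (f i)) := by
    funext w i
    rw [hhc, ev_map]
    rfl
  -- the orbit lies on the variety
  have hxn : ∀ n, ∀ h ∈ Y, eval (x n) h = 0 := by
    intro n
    induction n with
    | zero => exact hxY
    | succ n ih =>
      have h1 := hY (x n) ih
      have h2 : x (n + 1) = fun i => eval (x n) (f i) := funext fun i => hx n i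
      rw [h2]
      exact h1
  have hcmp : ∀ q : MvPolynomial (Fin (N + 1)) ℂ,
      (∀ z, (∀ h ∈ Y, eval z h = 0) → eval z q = 0) → ∀ φ : Module.Dual k ℂ,
      cmp φ q ∈ VI x' := by
    intro q hq φ
    rw [mem_VI]
    intro n
    rw [aeval_cmp, hx'x', hq _ (hxn n), map_zero]
  obtain ⟨T, hT⟩ := dml_X d hd g hgdeg x' (by
      intro n i
      rw [hx']
      simp only [Function.iterate_succ_apply']) (by
      intro z hz hFz
      let σ : AlgebraicClosure k →ₐ[k] ℂ :=
        IsAlgClosed.lift (M := ℂ) (R := k) (S := AlgebraicClosure k)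
      have h1 : AtInf Y (fun i => σ (z i)) := by
        intro q hq
        apply comp_zero σ
        intro φ
        rw [cmp_comp]
        exact hz.comp _ (hcmp q hq φ) _ (cmp_deg φ q)
      have h2 := hreg _ h1 fun i => by
        rw [hhc, ev_map, ← comp_aeval_apply _ σ]
        have h3 : aeval z (homogeneousComponent d (g i)) = 0 := hFz i
        rw [h3, map_zero]
      funext i
      exact (map_eq_zero σ).1 (congrFun h2 i)) V hV (by
      intro z hz hzV _ l hl c hc hlz t h hT h0
      rw [hSm] at hlz hT h0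
      refine hper z hz hzV l hl c hc hlz t h ?_ ?_
      · intro q hq
        apply grad_zero (k := k)
        intro φ
        rw [cmp_comp]
        exact hT.comp _ (hcmp q hq φ) _ (cmp_deg φ q)
      · intro a
        have h3 := congrFun h0 a
        rw [Matrix.mulVec, dotProduct] at h3
        refine Eq.trans ?_ h3
        refine Finset.sum_congr rfl fun j _ => ?_
        rw [hhc, pderiv_map, ev_map]
        rfl)
  refine ⟨T, ?_⟩
  rw [← hT]
  ext n
  simp only [Set.mem_ofPred_eq]
  rw [hx'x' n]

end Pool.Agent.R847.SX
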